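import Mathlib

set_option autoImplicit false

open Filter Topology
open scoped ENNReal InnerProductSpace

namespace Pool.Agent.Results.MP_d5c8f2_an.Counterexample

noncomputable abbrev H := lp (fun _ : ℕ => ℂ) 2

section
variable {K : Type} [NormedAddCommGroup K] [InnerProductSpace ℂ K]

def IsC0 (S : ℝ → K →L[ℂ] K) : Prop :=
  (∀ x, S 0 x = x) ∧ (∀ s t, 0 ≤ s → 0 ≤ t → ∀ x, S (t + s) x = S t (S s x)) ∧
    ∀ x, ContinuousOn (fun t => S t x) (Set.Ici 0)

def Embeddable (T : K →L[ℂ] K) : Prop := ∃ S : ℝ → K →L[ℂ] K, IsC0 S ∧ S 1 = T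

noncomputable def kerT (T : K →L[ℂ] K) : Submodule ℂ K := LinearMap.ker T.toLinearMap

noncomputable def cokerT (T : K →L[ℂ] K) : Submodule ℂ K := (LinearMap.range T.toLinearMap)ᗮ

def PIso (T : K →L[ℂ] K) : Prop := ∀ x ∈ (kerT T)ᗮ, ‖T x‖ = ‖x‖

def InfDim (W : Submodule ℂ K) : Prop := ¬ FiniteDimensional ℂ W

end

noncomputable def e (n : ℕ) : H := lp.single 2 n 1

theorem inner_e (n : ℕ) (x : H) : ⟪e n, x⟫_ℂ = x n := by
  simp [e, lp.inner_single_left]

theorem e_apply (n m : ℕ) : e n m = if m = n then 1 else 0 := by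
  simp [e, lp.single_apply, Pi.single_apply]

theorem not_fin (W : Submodule ℂ H) (h : ∀ n, e (n + 2) ∈ W) : ¬ FiniteDimensional ℂ W := by
  intro hW
  have ho : Orthonormal ℂ fun n => e (n + 2) := by
    rw [orthonormal_iff_ite]
    intro i j
    rw [inner_e, e_apply]
    simp
  have hl : LinearIndependent ℂ fun n => (⟨e (n + 2), h n⟩ : W) :=
    LinearIndependent.of_comp W.subtype ho.linearIndependent
  exact Module.Finite.not_linearIndependent_of_infinite _ hl

noncomputable def T0 : H →L[ℂ] H := (innerSL ℂ (e 0)).smulRight (e 1)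

theorem T0_apply (x : H) : T0 x = x 0 • e 1 := by
  simp [T0, inner_e]

theorem main : ∃ T : H →L[ℂ] H,
    PIso T ∧ InfDim (kerT T) ∧ InfDim (cokerT T) ∧ ¬ Embeddable T := by
  have n1 : ∀ n, ‖e n‖ = 1 := fun n => by simp [e]
  refine ⟨T0, fun x hx => ?_, not_fin _ fun n => ?_, not_fin _ fun n => ?_, ?_⟩
  · have h0 : (x - x 0 • e 0 : H) 0 = 0 := by
      rw [← inner_e, inner_sub_right, inner_smul_right, inner_e, inner_e]; simp [e_apply]
    have h1 : x - x 0 • e 0 ∈ LinearMap.ker T0.toLinearMap := by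
      show T0 _ = 0
      rw [T0_apply, h0, zero_smul]
    have h2 := Submodule.inner_right_of_mem_orthogonal h1 hx
    have h3 : ⟪x - x 0 • e 0, x 0 • e 0⟫_ℂ = 0 := by
      rw [inner_smul_right, ← inner_conj_symm, inner_e, h0]; simp
    have h4 : x - x 0 • e 0 = 0 := by
      rw [← inner_self_eq_zero (𝕜 := ℂ)]
      conv_lhs => rw [inner_sub_right, h2, h3]
      simp
    rw [T0_apply]
    conv_rhs => rw [sub_eq_zero.1 h4]
    rw [norm_smul, norm_smul, n1, n1]
  · show T0 _ = 0
    rw [T0_apply]; simp [e_apply]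
  · rw [cokerT, Submodule.mem_orthogonal]
    rintro _ ⟨x, rfl⟩
    show ⟪T0 x, _⟫_ℂ = 0
    rw [T0_apply, inner_smul_left, inner_e]; simp [e_apply]
  · rintro ⟨S, ⟨h0', hadd', hc⟩, h1⟩
    have h0 : S 0 = 1 := ContinuousLinearMap.ext h0'
    have hadd : ∀ s t, 0 ≤ s → 0 ≤ t → S (t + s) = S t * S s := fun s t hs ht =>
      ContinuousLinearMap.ext (hadd' s t hs ht)
    have he : T0 (e 0) = e 1 := by rw [T0_apply]; simp [e_apply]
    have hinv : ∀ t, 0 ≤ t → S t (e 1) = S t (e 0) 0 • e 1 := by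
      intro t ht
      have k1 := hadd 1 t zero_le_one ht
      have k2 := hadd t 1 ht zero_le_one
      rw [add_comm, k2, h1] at k1
      have := congrArg (fun A : H →L[ℂ] H => A (e 0)) k1
      simp only [ContinuousLinearMap.mul_apply, he] at this
      rw [← this, T0_apply]
    have hz : ∀ n : ℕ, S ((1 / 2) ^ n) (e 1) = 0 := by
      intro n
      induction n with
      | zero => simp [h1, T0_apply, e_apply]
      | succ n ih =>
        have p : (0 : ℝ) ≤ (1 / 2) ^ (n + 1) := by positivity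
        have k1 := hadd _ _ p p
        rw [show ((1 : ℝ) / 2) ^ (n + 1) + (1 / 2) ^ (n + 1) = (1 / 2) ^ n by ring] at k1
        rw [k1, ContinuousLinearMap.mul_apply, hinv _ p, map_smul, smul_eq_zero] at ih
        rcases ih with ih | ih
        · rw [hinv _ p, ih, zero_smul]
        · exact ih
    have ht : Tendsto (fun n : ℕ => ((1 : ℝ) / 2) ^ n) atTop (𝓝[Set.Ici 0] 0) :=
      tendsto_nhdsWithin_iff.2 ⟨tendsto_pow_atTop_nhds_zero_of_lt_one (by norm_num) (by norm_num),
        Eventually.of_forall fun n => by simp⟩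
    have k2 := ((hc (e 1)) 0 (by simp)).tendsto.comp ht
    simp only [Function.comp_def, hz, h0, ContinuousLinearMap.one_apply] at k2
    have k3 := tendsto_nhds_unique k2 tendsto_const_nhds
    have := n1 1
    rw [k3] at this
    simp at this

theorem result : ∃ (K : Type) (_ : NormedAddCommGroup K) (_ : InnerProductSpace ℂ K)
    (_ : CompleteSpace K) (T : K →L[ℂ] K),
    PIso T ∧ InfDim (kerT T) ∧ InfDim (cokerT T) ∧ ¬ Embeddable T :=
  ⟨H, inferInstance, inferInstance, inferInstance, main⟩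

end Pool.Agent.Results.MP_d5c8f2_an.Counterexample
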